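import Pool.Agent.Q44.JQ.W.Gen

/-!
# The theorem with sets of integers
-/

set_option autoImplicit false
set_option linter.unusedSectionVars false

open scoped Classical Topology

namespace Q44.JQ.W

open Finset Module Filter
open Q44.JQ
open Pool.Agent.TH344.JG (LocJ SelJ PR df)
open Pool.Agent.Y723.PT (tw)
open Pool.Agent.Q269.SL (law2)

variable {κ : Type} [Fintype κ] (E : Ex κ)

theorem ncard_Icc (X : ℕ) (C : ℤ → Prop) {i : DecidablePred C} :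
    {D : ℤ | |D| ≤ X ∧ C D}.ncard = ((Icc (-(X : ℤ)) X).filter fun D => C D).card := by
  rw [← Set.ncard_coe_finset]
  congr 1
  ext D
  rw [Finset.mem_coe, mem_filter, mem_Icc, ← abs_le]
  rfl

theorem Ex.out (H : Facts) (S : Finset ℕ) (hS : ∀ k, E.p k ∉ S) (D₀ : ℤ) (hD₀ : Squarefree D₀)
    (hp₀ : ∀ k, ¬ (E.p k : ℤ) ∣ D₀) (C : ℤ → Prop) (hC : ∀ D, C D ↔ Squarefree D ∧ E.Cond S D₀ D) :
    (∃ c : ℝ, 0 < c ∧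
      Tendsto (fun X : ℕ => ({D : ℤ | |D| ≤ X ∧ C D}.ncard : ℝ) / X) atTop (𝓝 c)) ∧
    ∀ 𝒜 : Set (κ → ℕ), ∀ ε : ℝ, 0 < ε → ∀ᶠ X : ℕ in atTop,
      ((∑' e : κ → ℕ, if e ∈ 𝒜 then ∏ k, law2 (e k) else 0) - ε) *
        ({D : ℤ | |D| ≤ X ∧ C D}.ncard : ℝ) ≤
        ({D : ℤ | (|D| ≤ X ∧ C D) ∧ ∃ e ∈ 𝒜, ∀ k, Bdd (tw D (E.a k)) (e k)}.ncard : ℝ) := by
  have h0 : ∀ 𝒜 : Set (κ → ℕ), ∃ G : ℤ → Prop, ∀ D, G D ↔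
      ∃ e ∈ 𝒜, ∀ k, Bdd (tw D (E.a k)) (e k) := fun 𝒜 => ⟨_, fun _ => Iff.rfl⟩
  constructor
  · obtain ⟨G, hG⟩ := h0 ∅
    obtain ⟨⟨c, hc, h1⟩, -⟩ := E.all H S hS D₀ hD₀ hp₀ C hC ∅ G hG
    refine ⟨c, hc, h1.congr fun X => ?_⟩
    rw [ncard_Icc]
  · intro 𝒜 ε hε
    obtain ⟨G, hG⟩ := h0 𝒜
    obtain ⟨-, h2⟩ := E.all H S hS D₀ hD₀ hp₀ C hC 𝒜 G hG
    filter_upwards [h2 ε hε] with X hX
    rw [ncard_Icc]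
    have e : {D : ℤ | (|D| ≤ X ∧ C D) ∧ ∃ e ∈ 𝒜, ∀ k, Bdd (tw D (E.a k)) (e k)} =
        {D : ℤ | |D| ≤ X ∧ (C D ∧ G D)} := by
      ext D
      rw [Set.mem_ofPred_eq, Set.mem_ofPred_eq, hG, and_assoc]
    rw [e]
    rw [ncard_Icc X (fun D => C D ∧ G D) (i := fun D => instDecidableAnd)]
    exact hX

end Q44.JQ.W
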