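import Pool.Agent.Q44.JQ.W.Pkg

/-!
# The law over all squarefree integers
-/

set_option autoImplicit false
set_option linter.unusedSectionVars false

open scoped Classical Topology

namespace Q44.JQ.W

open Finset Module Filter
open Q44.JQ
open Pool.Agent.Y703.CQ (nr)
open Pool.Agent.TH344.JG (LocJ SelJ PR df)
open Pool.Agent.Y723.PT (tw)
open Pool.Agent.Q269.SL (law2)

variable {T : Finset ℕ}

/-- there are integers which change the class at one prime only -/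
theorem exists_Tt (hLBL : S_LBL) (hT : TS T) {q : T} (hq : (q : ℕ) ≠ 2) : ∃ t, Tt T q t := by
  have hT' : TS (T.erase q) := ⟨fun p hp => hT.pr p (mem_of_mem_erase hp),
    mem_erase.2 ⟨fun h => hq h.symm, hT.two⟩⟩
  have L' := LB.of hLBL hT'
  have hqp := hT.pr q q.2
  haveI := Fact.mk hqp
  have hns : ∃ a : ZMod (q : ℕ), ¬ IsSquare a := by
    refine FiniteField.exists_nonsquare ?_
    rw [ZMod.ringChar_zmod_n]
    exact hq
  obtain ⟨a, ha⟩ := hns
  have hcop : (MT (T.erase q)).Coprime q := by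
    rw [Nat.coprime_comm]
    exact hT'.cop.2 ((hT'.prime_cop hqp).2 (notMem_erase _ _))
  obtain ⟨t, ht1, ht2⟩ := Nat.chineseRemainder hcop 1 a.val
  have hc : Cop (T.erase q) t := by
    refine hT'.cop.1 ?_
    have h1 : t.gcd (MT (T.erase q)) = Nat.gcd 1 (MT (T.erase q)) := ht1.gcd_eq
    unfold Nat.Coprime
    rw [h1, Nat.gcd_one_left]
  have hta : ((t : ℕ) : ZMod q) = a := by
    have h2 : ((t : ℕ) : ZMod q) = ((a.val : ℕ) : ZMod q) := (ZMod.natCast_eq_natCast_iff _ _ _).2 ht2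
    rw [h2, ZMod.natCast_zmod_val]
  have hcT : Cop T t := by
    intro p hp hd
    by_cases hpq : p = q
    · subst hpq
      apply ha
      rw [← hta, (ZMod.natCast_eq_zero_iff _ _).2 hd]
      exact ⟨0, by rw [mul_zero]⟩
    · exact hc p (mem_erase.2 ⟨hpq, hp⟩) hd
  refine ⟨t, hcT, ?_, ?_⟩
  · intro p _ hp hpq
    have h3 := L'.sq t 1 hc (fun p hp hd => (hT'.pr p hp).one_lt.ne' (Nat.dvd_one.1 hd)) (by
      refine L'.md t 1 hc ?_
      exact ht1) p (mem_erase.2 ⟨hpq, hp⟩)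
    rwa [Nat.cast_one, mul_one] at h3
  · rw [hta]
    exact ha

variable {κ : Type} (F : Fm T κ) (L : LB T)

include L

theorem Fm.main [Fintype κ] (hARX : S_ARX) (hADJP : S_ADJP) (hOMV : S_OMV) (hLAJ : S_LAJ2)
    (hSQM : S_SQM) (hLBL : S_LBL) :
    ∃ (dd : κ → ℤ → ℕ) (δ : ℝ), 0 < δ ∧
      (∀ D : ℤ, Squarefree D → F.Gk (ct D) → ∀ k, (SelJ (tw D (F.c k).a)).Finite ∧
        (SelJ (tw D (F.c k).a)).ncard ≤ 2 ^ dd k D) ∧
      ∀ 𝒞 : Finset (Cl T), (∀ x ∈ 𝒞, F.Gk x.1) →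
        (∀ k t x, x ∈ 𝒞 → Tt T (F.p k) t → (x.1, x.2 + lbl T t) ∈ 𝒞) →
        ∀ C : ℤ → Prop, (∀ D, C D ↔ Squarefree D ∧ clD T D ∈ 𝒞) →
        Tendsto (fun X : ℕ => (((Icc (-(X : ℤ)) X).filter fun D => C D).card : ℝ) / X) atTop
          (𝓝 (δ * ∑ x ∈ 𝒞, (1 : ℝ) / (Uo x.1).natAbs)) ∧
        ∀ (r : κ → ℕ) (Q : ℤ → Prop), (∀ D, Q D ↔ ∀ k, dd k D = 2 * (F.c k).g + r k) →
          Tendsto (fun X : ℕ => (((Icc (-(X : ℤ)) X).filter fun D => C D ∧ Q D).card : ℝ) / X) atTop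
            (𝓝 ((∏ k, law2 (r k)) * (δ * ∑ x ∈ 𝒞, (1 : ℝ) / (Uo x.1).natAbs))) := by
  obtain ⟨δ, hδ, hdens⟩ := L.dens hSQM
  have h1 : ∀ γ : Option T → ZMod 2, ∃ (dm : κ → (Option T → ZMod 2) → ℕ → ℕ)
      (π : κ → (Option T → ZMod 2) → ZMod 2), F.Gk γ →
      (∀ k n, Squarefree n → Cop T n → (SelJ (tw (Uo γ * n) (F.c k).a)).Finite ∧
        (SelJ (tw (Uo γ * n) (F.c k).a)).ncard ≤ 2 ^ dm k (lbl T n) n) ∧
      (∀ ρ (r : κ → ℕ) (Q : ℕ → Prop), (∀ n, Q n ↔ ∀ k, dm k ρ n = 2 * (F.c k).g + r k) →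
        Tendsto (fun X : ℕ => (((Icc 1 X).filter fun n => Dn T ρ n ∧ Q n).card : ℝ) /
          (((Icc 1 X).filter fun n => Dn T ρ n).card : ℝ)) atTop (𝓝 (∏ k, lawc (π k ρ) (r k)))) ∧
      (∀ k l ρ t, Tt T (F.p k) t →
        π l (ρ + lbl T t) = π l ρ + if l = k then 1 else 0) := by
    intro γ
    by_cases hγ : F.Gk γ
    · obtain ⟨dm, π, h⟩ := F.pkg L hARX hADJP hOMV hLAJ hγ
      exact ⟨dm, π, fun _ => h⟩
    · exact ⟨fun _ _ _ => 0, fun _ _ => 0, fun h => absurd h hγ⟩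
  choose dm π hpk using h1
  refine ⟨fun k D => dm (ct D) k (lbl T (nD T D)) (nD T D), δ, hδ, ?_, ?_⟩
  · intro D hD hG k
    obtain ⟨g1, g2, g3⟩ := L.dec hD
    have h2 := (hpk (ct D) hG).1 k (nD T D) g2 g3
    rw [← g1] at h2
    exact h2
  · intro 𝒞 hG hinv C hC
    obtain ⟨Tr, hTr⟩ : ∃ Tr : ℤ → Prop, ∀ D, Tr D := ⟨fun _ => True, fun _ => trivial⟩
    obtain ⟨Rr, hRr⟩ : ∃ Rr : ℕ → Prop, ∀ n, Rr n := ⟨fun _ => True, fun _ => trivial⟩
    have hone : ∀ x ∈ 𝒞, ∀ C' : ℤ → Prop, (∀ D, C' D ↔ Squarefree D ∧ clD T D = x) →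
        Tendsto (fun X : ℕ => (((Icc (-(X : ℤ)) X).filter fun D => C' D ∧ Tr D).card : ℝ) / X) atTop
          (𝓝 (δ * (1 / (Uo x.1).natAbs))) := by
      rintro ⟨γ, ρ⟩ - C' hC'
      have h2 := L.lim_cls γ ρ C' Tr Rr hC' (fun n => ⟨fun _ => hTr _, fun _ => hRr _⟩)
        (c := δ) (by
          refine (hdens ρ).congr fun X => ?_
          congr 3
          refine Finset.filter_congr fun n _ => ?_
          exact ⟨fun h => ⟨h, hRr n⟩, fun h => h.1⟩)
      have e : δ * (1 / ((Uo (γ, ρ).1).natAbs : ℝ)) = δ / ((Uo γ).natAbs : ℝ) := by ring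
      rw [e]
      exact h2
    constructor
    · have h2 := lim_sum 𝒞 C Tr hC (fun x => δ * (1 / (Uo x.1).natAbs)) hone
      rw [← mul_sum] at h2
      refine h2.congr fun X => ?_
      congr 3
      refine Finset.filter_congr fun n _ => ?_
      exact ⟨fun h => h.1, fun h => ⟨h, hTr n⟩⟩
    · intro r Q hQ
      have hcl : ∀ x ∈ 𝒞, ∀ C' : ℤ → Prop, (∀ D, C' D ↔ Squarefree D ∧ clD T D = x) →
          Tendsto (fun X : ℕ => (((Icc (-(X : ℤ)) X).filter fun D => C' D ∧ Q D).card : ℝ) / X) atTop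
            (𝓝 (δ * (∏ k, lawc (π x.1 k x.2) (r k)) / (Uo x.1).natAbs)) := by
        rintro ⟨γ, ρ⟩ hx C' hC'
        obtain ⟨Qn, hQn⟩ : ∃ Qn : ℕ → Prop, ∀ n, Qn n ↔ ∀ k, dm γ k ρ n = 2 * (F.c k).g + r k :=
          ⟨_, fun _ => Iff.rfl⟩
        obtain ⟨R, hR⟩ : ∃ R : ℕ → Prop, ∀ n : ℕ, R n ↔ Q (Uo γ * n) := ⟨_, fun _ => Iff.rfl⟩
        have h2 := L.lim_mul (hdens ρ) Qn ((hpk γ (hG _ hx)).2.1 ρ r Qn hQn)
        refine L.lim_cls γ ρ C' Q R hC' hR (h2.congr fun X => ?_)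
        congr 3
        refine Finset.filter_congr fun n _ => ?_
        refine and_congr_right fun hn => ?_
        obtain ⟨g1, g2, g3⟩ := L.uni γ hn.1 hn.2.1
        rw [hQn, hR, hQ]
        show _ ↔ ∀ k, dm (ct (Uo γ * (n : ℤ))) k (lbl T (nD T (Uo γ * (n : ℤ))))
          (nD T (Uo γ * (n : ℤ))) = 2 * (F.c k).g + r k
        rw [g2, g3, hn.2.2]
      have h2 := lim_sum 𝒞 C Q hC _ hcl
      -- the average
      choose t ht using fun k => exists_Tt hLBL L.toTS (F.p_ne2 k)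
      have hinv2 : ∀ (k : κ) (x : Cl T), (x.1, x.2 + lbl T (t k)) ∈ 𝒞 ↔ x ∈ 𝒞 := by
        intro k x
        constructor
        · intro h
          have h3 := hinv k (t k) _ h (ht k)
          have e : (x.2 + lbl T (t k)) + lbl T (t k) = x.2 := by
            rw [add_assoc, CharTwo.add_self_eq_zero, add_zero]
          change (x.1, (x.2 + lbl T (t k)) + lbl T (t k)) ∈ 𝒞 at h3
          rw [e] at h3
          exact h3
        · intro h
          exact hinv k (t k) x h (ht k)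
      have h3 := avg (Ω := Cl T) (fun x => if x ∈ 𝒞 then δ * ((1 : ℝ) / (Uo x.1).natAbs) else 0)
        (fun k x => π x.1 k x.2)
        (fun k =>
          { toFun := fun x => (x.1, x.2 + lbl T (t k))
            invFun := fun x => (x.1, x.2 + lbl T (t k))
            left_inv := fun x => by
              refine Prod.ext rfl ?_
              show (x.2 + lbl T (t k)) + lbl T (t k) = x.2
              rw [add_assoc, CharTwo.add_self_eq_zero, add_zero]
            right_inv := fun x => by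
              refine Prod.ext rfl ?_
              show (x.2 + lbl T (t k)) + lbl T (t k) = x.2
              rw [add_assoc, CharTwo.add_self_eq_zero, add_zero] })
        (fun k x => by
          show (if (x.1, x.2 + lbl T (t k)) ∈ 𝒞 then δ * ((1 : ℝ) / (Uo x.1).natAbs) else 0) =
            if x ∈ 𝒞 then δ * ((1 : ℝ) / (Uo x.1).natAbs) else 0
          by_cases h : x ∈ 𝒞
          · rw [if_pos h, if_pos ((hinv2 k x).2 h)]
          · rw [if_neg h, if_neg fun h' => h ((hinv2 k x).1 h')])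
        (fun k l x hx => by
          have hx' : x ∈ 𝒞 := by
            by_contra h
            exact hx (if_neg h)
          exact (hpk x.1 (hG _ hx')).2.2 k l x.2 (t k) (ht k))
        (fun k c => lawc c (r k))
      simp only [lawc_avg] at h3
      have e1 : ∑ x ∈ 𝒞, δ * (∏ k, lawc (π x.1 k x.2) (r k)) / (Uo x.1).natAbs =
          ∑ x : Cl T, (if x ∈ 𝒞 then δ * ((1 : ℝ) / (Uo x.1).natAbs) else 0) *
            ∏ k, lawc (π x.1 k x.2) (r k) := by
        simp only [ite_mul, zero_mul]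
        rw [Finset.sum_ite_mem, Finset.univ_inter]
        refine sum_congr rfl fun x _ => ?_
        ring
      have e2 : ∑ x : Cl T, (if x ∈ 𝒞 then δ * ((1 : ℝ) / (Uo x.1).natAbs) else 0) =
          δ * ∑ x ∈ 𝒞, (1 : ℝ) / (Uo x.1).natAbs := by
        rw [Finset.sum_ite_mem, Finset.univ_inter, mul_sum]
      rw [e1, h3, e2] at h2
      exact h2

end Q44.JQ.W
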