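import Pool.Agent.Q44.JQ.W.Tot

/-!
# Explicit hypotheses
-/

set_option autoImplicit false
set_option linter.unusedSectionVars false

open scoped Classical Topology

namespace Q44.JQ.W

open Finset Module Filter
open Q44.JQ
open Pool.Agent.Y703.CQ (nr)
open Pool.Agent.TH344.JG (LocJ SelJ PR df)
open Pool.Agent.Y723.PT (tw)
open Pool.Agent.Q269.SL (law2)

/-- the families with the explicit hypotheses -/
structure Ex (κ : Type) [Fintype κ] where
  g : κ → ℕ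
  hg : ∀ k, 1 ≤ g k
  a : ∀ k, Fin (2 * g k + 1) → ℤ
  ha : ∀ k, Function.Injective (a k)
  p : κ → ℕ
  hp : ∀ k, (p k).Prime ∧ p k ≠ 2
  h1 : ∀ k, (p k : ℤ) ∣ ∏ x : PR (2 * g k + 1), df (a k) x
  h2 : ∀ k, ¬ (p k : ℤ) ^ 2 ∣ ∏ l, ∏ x : PR (2 * g l + 1), df (a l) x
  H : ∀ k, (∀ W : Finset (PR (2 * g k + 1)), W.Nonempty → ∀ s : ℤ,
      ∏ x ∈ W, df (a k) x ≠ s ^ 2 ∧ ∏ x ∈ W, df (a k) x ≠ -s ^ 2) ∨
    (g k = 1 ∧ ∀ i j l, i ≠ j → i ≠ l → j ≠ l → ∀ s : ℤ, (a k i - a k j) * (a k i - a k l) ≠ s ^ 2)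

variable {κ : Type} [Fintype κ] (E : Ex κ)

/-- the product of all the differences -/
def Ex.DD : ℤ := ∏ l, ∏ x : PR (2 * E.g l + 1), df (E.a l) x

theorem Ex.df_ne (k : κ) (x : PR (2 * E.g k + 1)) : df (E.a k) x ≠ 0 := by
  unfold df
  exact sub_ne_zero.2 fun h => (ne_of_lt x.2) (E.ha k h)

theorem Ex.DD0 : E.DD ≠ 0 := prod_ne_zero_iff.2 fun k _ => prod_ne_zero_iff.2 fun x _ => E.df_ne k x

/-- the primes -/
noncomputable def Ex.T (S : Finset ℕ) : Finset ℕ :=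
  insert 2 (S.filter Nat.Prime ∪ E.DD.natAbs.primeFactors)

theorem Ex.TS (S : Finset ℕ) : TS (E.T S) where
  pr := by
    intro p hp
    rcases mem_insert.1 hp with h | h
    · rw [h]
      exact Nat.prime_two
    · rcases mem_union.1 h with h | h
      · exact (mem_filter.1 h).2
      · exact Nat.prime_of_mem_primeFactors h
  two := mem_insert_self _ _

theorem Ex.mem_T {S : Finset ℕ} {p : ℕ} (hp : p.Prime) (h : (p : ℤ) ∣ E.DD) : p ∈ E.T S := by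
  refine mem_insert_of_mem (mem_union_right _ (Nat.mem_primeFactors.2 ⟨hp, Int.natCast_dvd.1 h, ?_⟩))
  exact Int.natAbs_ne_zero.2 E.DD0

theorem Ex.dvd_DD (k : κ) (x : PR (2 * E.g k + 1)) : df (E.a k) x ∣ E.DD :=
  (Finset.dvd_prod_of_mem _ (mem_univ x)).trans
    (Finset.dvd_prod_of_mem (fun l => ∏ x : PR (2 * E.g l + 1), df (E.a l) x) (mem_univ k))

/-- two different differences -/
theorem Ex.two_dvd {k l : κ} {x : PR (2 * E.g k + 1)} {y : PR (2 * E.g l + 1)}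
    (h : (⟨k, x⟩ : Σ k, PR (2 * E.g k + 1)) ≠ ⟨l, y⟩) {p : ℤ} (h1 : p ∣ df (E.a k) x)
    (h2 : p ∣ df (E.a l) y) : p ^ 2 ∣ E.DD := by
  have e : E.DD = ∏ z : Σ k, PR (2 * E.g k + 1), df (E.a z.1) z.2 := by
    unfold Ex.DD
    rw [Fintype.prod_sigma]
  rw [e, ← Finset.mul_prod_erase univ _ (mem_univ (⟨k, x⟩ : Σ k, PR (2 * E.g k + 1))), pow_two]
  refine mul_dvd_mul h1 (h2.trans ?_)
  exact Finset.dvd_prod_of_mem (fun z : Σ k, PR (2 * E.g k + 1) => df (E.a z.1) z.2)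
    (mem_erase.2 ⟨h.symm, mem_univ _⟩)

theorem Ex.exi (k : κ) : ∃ x : PR (2 * E.g k + 1), (E.p k : ℤ) ∣ df (E.a k) x := by
  obtain ⟨x, -, hx⟩ := (Nat.prime_iff_prime_int.1 (E.hp k).1).exists_mem_finset_dvd (E.h1 k)
  exact ⟨x, hx⟩

theorem dvd_pair {n : ℕ} {a : Fin n → ℤ} {i j : Fin n} (h : i ≠ j) {p : ℤ} (hp : p ∣ a i - a j) :
    ∃ x : PR n, p ∣ df a x := by
  rcases lt_or_gt_of_ne h with h | h
  · exact ⟨⟨(i, j), h⟩, hp⟩
  · refine ⟨⟨(j, i), h⟩, ?_⟩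
    show p ∣ a j - a i
    rw [← neg_sub]
    exact hp.neg_right

/-- the curves -/
def Ex.cr (S : Finset ℕ) (k : κ) : Cr (E.T S) where
  g := E.g k
  hg := E.hg k
  a := E.a k
  inj := E.ha k
  supp := fun i j hij p hp h => by
    obtain ⟨x, hx⟩ := dvd_pair hij h
    exact E.mem_T hp (hx.trans (E.dvd_DD k x))

theorem Ex.pT (S : Finset ℕ) (k : κ) : E.p k ∈ E.T S := by
  obtain ⟨x, hx⟩ := E.exi k
  exact E.mem_T (E.hp k).1 (hx.trans (E.dvd_DD k x))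

theorem ct_prod {T : Finset ℕ} (L : LB T) {ι : Type} (W : Finset ι) (f : ι → ℤ)
    (hf : ∀ i ∈ W, f i ≠ 0) : (ct (∏ i ∈ W, f i) : Option T → ZMod 2) = ∑ i ∈ W, ct (f i) := by
  induction W using Finset.induction_on with
  | empty =>
    rw [prod_empty, sum_empty]
    have := ct_nat (T := T) (n := 1) fun p hp hd => (L.pr p hp).one_lt.ne' (Nat.dvd_one.1 hd)
    rwa [Nat.cast_one] at this
  | insert i W hi ih =>
    rw [prod_insert hi, sum_insert hi, L.ct_mul _ _ (hf i (mem_insert_self _ _))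
      (prod_ne_zero_iff.2 fun j hj => hf j (mem_insert_of_mem hj)),
      ih fun j hj => hf j (mem_insert_of_mem hj)]

theorem Uo_zero {T : Finset ℕ} : Uo (0 : Option T → ZMod 2) = 1 := by
  unfold Uo
  exact prod_eq_one fun o _ => if_pos rfl

theorem Ex.ind {S : Finset ℕ} (L : LB (E.T S)) (k : κ)
    (hH : ∀ W : Finset (PR (2 * E.g k + 1)), W.Nonempty → ∀ s : ℤ,
      ∏ x ∈ W, df (E.a k) x ≠ s ^ 2 ∧ ∏ x ∈ W, df (E.a k) x ≠ -s ^ 2)
    (w : PR (2 * E.g k + 1) → ZMod 2) (w₀ : ZMod 2)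
    (h : (∑ x, w x • (ct (df (E.a k) x) : Option (E.T S) → ZMod 2)) +
      w₀ • (ct (-1) : Option (E.T S) → ZMod 2) = 0) : w = 0 := by
  by_contra hw
  set W := univ.filter fun x => w x ≠ 0 with hW
  have hWn : W.Nonempty := by
    by_contra h0
    rw [not_nonempty_iff_eq_empty] at h0
    refine hw (funext fun x => ?_)
    by_contra hx
    have : x ∈ W := mem_filter.2 ⟨mem_univ _, hx⟩
    rw [h0] at this
    exact absurd this (notMem_empty _)
  have h1 : ∑ x, w x • (ct (df (E.a k) x) : Option (E.T S) → ZMod 2) =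
      ct (∏ x ∈ W, df (E.a k) x) := by
    rw [ct_prod L W _ fun x _ => E.df_ne k x, hW, sum_filter]
    refine sum_congr rfl fun x _ => ?_
    rcases zmod2_cases (w x) with h | h
    · rw [h, zero_smul, if_neg (fun h' => h' rfl)]
    · rw [h, one_smul, if_pos (by decide)]
  have hP0 : ∏ x ∈ W, df (E.a k) x ≠ 0 := prod_ne_zero_iff.2 fun x _ => E.df_ne k x
  have hsup : ∀ p : ℕ, p.Prime → (p : ℤ) ∣ ∏ x ∈ W, df (E.a k) x → p ∈ E.T S := by
    intro p hp hd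
    obtain ⟨x, -, hx⟩ := (Nat.prime_iff_prime_int.1 hp).exists_mem_finset_dvd hd
    exact E.mem_T hp (hx.trans (E.dvd_DD k x))
  rw [h1] at h
  rcases zmod2_cases w₀ with h0 | h0
  · rw [h0, zero_smul, add_zero] at h
    obtain ⟨s, -, hs⟩ := L.ct_sq _ hP0 hsup
    rw [h, Uo_zero, mul_one] at hs
    exact (hH W hWn s).1 hs
  · rw [h0, one_smul, ← L.ct_mul _ _ hP0 (by norm_num)] at h
    obtain ⟨s, -, hs⟩ := L.ct_sq ((∏ x ∈ W, df (E.a k) x) * -1)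
      (mul_ne_zero hP0 (by norm_num)) fun p hp hd => hsup p hp (by
        rw [mul_neg, mul_one] at hd
        exact (dvd_neg.1 hd))
    rw [h, Uo_zero, mul_one] at hs
    refine (hH W hWn s).2 ?_
    rw [← hs]
    ring

theorem Ex.irr (hA : S_IRRA) (hB : S_IRRB) {S : Finset ℕ} (L : LB (E.T S)) (k : κ) :
    (E.cr S k).Irr := by
  rcases E.H k with h | ⟨hg, h⟩
  · exact hA (E.T S) (E.cr S k) fun w w₀ hw => E.ind L k h w w₀ hw
  · refine hB (E.T S) (E.cr S k) hg ?_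
    intro i j l hij hil hjl hct
    have hne : ∀ {x y : Fin (2 * E.g k + 1)}, x ≠ y → E.a k x - E.a k y ≠ 0 := fun hxy =>
      sub_ne_zero.2 fun h => hxy (E.ha k h)
    have hP0 : (E.a k i - E.a k j) * (E.a k i - E.a k l) ≠ 0 := mul_ne_zero (hne hij) (hne hil)
    have h2 : (ct ((E.a k i - E.a k j) * (E.a k i - E.a k l)) : Option (E.T S) → ZMod 2) = 0 := by
      rw [L.ct_mul _ _ (hne hij) (hne hil)]
      have : (ct (E.a k i - E.a k j) : Option (E.T S) → ZMod 2) = ct (E.a k i - E.a k l) := hct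
      rw [this]
      exact CharTwo.add_self_eq_zero _
    obtain ⟨s, -, hs⟩ := L.ct_sq _ hP0 fun p hp hd => by
      rcases (Nat.prime_iff_prime_int.1 hp).dvd_or_dvd hd with h3 | h3
      · obtain ⟨x, hx⟩ := dvd_pair hij h3
        exact E.mem_T hp (hx.trans (E.dvd_DD k x))
      · obtain ⟨x, hx⟩ := dvd_pair hil h3
        exact E.mem_T hp (hx.trans (E.dvd_DD k x))
    rw [h2, Uo_zero, mul_one] at hs
    exact h i j l hij hil hjl s hs

/-- the data -/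
noncomputable def Ex.Fm (hA : S_IRRA) (hB : S_IRRB) (S : Finset ℕ) (L : LB (E.T S)) :
    Fm (E.T S) κ where
  c := E.cr S
  p := fun k => ⟨E.p k, E.pT S k⟩
  i := fun k => (E.exi k).choose
  nice := fun k => by
    refine ⟨(E.hp k).2, (E.exi k).choose_spec, fun h => ?_, fun x hx hd => ?_⟩
    · exact E.h2 k (h.trans (E.dvd_DD k _))
    · refine E.h2 k (E.two_dvd (k := k) (l := k) (x := (E.exi k).choose) (y := x) ?_
        (E.exi k).choose_spec hd)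
      intro h
      exact hx (eq_of_heq (Sigma.mk.inj h).2).symm
  good := fun k l hkl => by
    refine ⟨(E.hp l).2, fun i j hij hd => ?_⟩
    obtain ⟨x, hx⟩ := dvd_pair hij hd
    refine E.h2 l (E.two_dvd (k := l) (l := k) (x := (E.exi l).choose) (y := x) ?_
      (E.exi l).choose_spec hx)
    intro h
    exact hkl (Sigma.mk.inj h).1.symm
  irr := E.irr hA hB L

/-- the condition which defines a class of integers -/
def Ex.Cond (S : Finset ℕ) (D₀ D : ℤ) : Prop := (∀ k, ¬ (E.p k : ℤ) ∣ D) ∧ 0 < D * D₀ ∧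
  ∀ (l : ℕ) [Fact l.Prime], l ∈ S → IsSquare ((D * D₀ : ℤ) : ℚ_[l])

theorem isSquare_of_mul_sq {K : Type} [Field K] {x w : K} (hw : w ≠ 0) (h : IsSquare (x * w ^ 2)) :
    IsSquare x := by
  obtain ⟨r, hr⟩ := h
  refine ⟨r / w, ?_⟩
  rw [div_mul_div_comm, ← hr]
  field_simp

theorem isSquare_cancel {K : Type} [Field K] {x y z : K} (hy : y ≠ 0) (h1 : IsSquare (x * y))
    (h2 : IsSquare (y * z)) : IsSquare (x * z) := by
  refine isSquare_of_mul_sq hy ?_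
  have : x * z * y ^ 2 = (x * y) * (y * z) := by ring
  rw [this]
  exact h1.mul h2

variable {S : Finset ℕ} (L : LB (E.T S))

include L

theorem Ex.not_dvd_iff {D : ℤ} (hD : Squarefree D) (k : κ) :
    ¬ (E.p k : ℤ) ∣ D ↔ (ct D : Option (E.T S) → ZMod 2) (some ⟨E.p k, E.pT S k⟩) = 0 := by
  have hp := (E.hp k).1
  constructor
  · intro h
    rw [ct_some]
    show ((padicValInt (E.p k) D : ℕ) : ZMod 2) = 0
    rw [padicValInt.eq_zero_of_not_dvd h, Nat.cast_zero]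
  · intro h h'
    obtain ⟨g1, g2, g3⟩ := L.dec hD
    have h2 : (E.p k : ℤ) ∣ Uo (ct D : Option (E.T S) → ZMod 2) * (nD (E.T S) D : ℕ) := by
      rw [← g1]
      exact h'
    rcases (Nat.prime_iff_prime_int.1 hp).dvd_or_dvd h2 with h3 | h3
    · exact LB.not_dvd' L (t := ⟨E.p k, E.pT S k⟩) h h3
    · exact g3 _ (E.pT S k) (Int.natCast_dvd_natCast.1 h3)

/-- the condition depends only on the class -/
theorem Ex.cond_cls {D₀ D D' : ℤ} (hD : Squarefree D) (hD' : Squarefree D')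
    (h : clD (E.T S) D = clD (E.T S) D') (hc : E.Cond S D₀ D) : E.Cond S D₀ D' := by
  have e1 : (ct D : Option (E.T S) → ZMod 2) = ct D' := congrArg Prod.fst h
  have e2 : lbl (E.T S) (nD (E.T S) D) = lbl (E.T S) (nD (E.T S) D') := congrArg Prod.snd h
  obtain ⟨g1, g2, g3⟩ := L.dec hD
  obtain ⟨g1', g2', g3'⟩ := L.dec hD'
  obtain ⟨c1, c2, c3⟩ := hc
  have hn : (0 : ℤ) < (nD (E.T S) D : ℕ) := by
    exact_mod_cast Nat.pos_of_ne_zero g2.ne_zero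
  have hn' : (0 : ℤ) < (nD (E.T S) D' : ℕ) := by
    exact_mod_cast Nat.pos_of_ne_zero g2'.ne_zero
  refine ⟨fun k => ?_, ?_, fun l _ hl => ?_⟩
  · rw [E.not_dvd_iff L hD' k, ← e1, ← E.not_dvd_iff L hD k]
    exact c1 k
  · rw [g1] at c2
    rw [g1', ← e1]
    have h3 : 0 < Uo (ct D : Option (E.T S) → ZMod 2) * D₀ := by
      have h4 : Uo (ct D : Option (E.T S) → ZMod 2) * (nD (E.T S) D : ℕ) * D₀ =
          (nD (E.T S) D : ℕ) * (Uo (ct D : Option (E.T S) → ZMod 2) * D₀) := by ring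
      rw [h4] at c2
      exact (mul_pos_iff_of_pos_left hn).1 c2
    have h4 : Uo (ct D : Option (E.T S) → ZMod 2) * (nD (E.T S) D' : ℕ) * D₀ =
        (nD (E.T S) D' : ℕ) * (Uo (ct D : Option (E.T S) → ZMod 2) * D₀) := by ring
    rw [h4]
    exact mul_pos hn' h3
  · have h3 := c3 l hl
    have hlT : l ∈ E.T S := mem_insert_of_mem (mem_union_left _ (mem_filter.2 ⟨hl, Fact.out⟩))
    have h5 := L.sq _ _ g3 g3' e2 l hlT
    have hU0 : ((Uo (ct D : Option (E.T S) → ZMod 2) : ℤ) : ℚ_[l]) ≠ 0 :=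
      Int.cast_ne_zero.2 (L.U0 _)
    have hD0 : ((D : ℤ) : ℚ_[l]) ≠ 0 := Int.cast_ne_zero.2 hD.ne_zero
    push_cast at h3 ⊢
    refine isSquare_cancel hD0 ?_ h3
    have e3 : ((D' : ℤ) : ℚ_[l]) * ((D : ℤ) : ℚ_[l]) =
        ((nD (E.T S) D : ℕ) : ℚ_[l]) * ((nD (E.T S) D' : ℕ) : ℚ_[l]) *
          (((Uo (ct D : Option (E.T S) → ZMod 2) : ℤ) : ℚ_[l]) *
          ((Uo (ct D : Option (E.T S) → ZMod 2) : ℤ) : ℚ_[l])) := by
      have a1 : ((D : ℤ) : ℚ_[l]) = ((Uo (ct D : Option (E.T S) → ZMod 2) : ℤ) : ℚ_[l]) *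
          ((nD (E.T S) D : ℕ) : ℚ_[l]) := by
        have := congrArg (Int.cast : ℤ → ℚ_[l]) g1
        push_cast at this
        exact this
      have a2 : ((D' : ℤ) : ℚ_[l]) = ((Uo (ct D : Option (E.T S) → ZMod 2) : ℤ) : ℚ_[l]) *
          ((nD (E.T S) D' : ℕ) : ℚ_[l]) := by
        have := congrArg (Int.cast : ℤ → ℚ_[l]) g1'
        rw [← e1] at this
        push_cast at this
        exact this
      rw [a2, a1]
      ring
    rw [e3]
    exact h5.mul ⟨_, rfl⟩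

/-- the classes are stable -/
theorem Ex.cond_inv (hS : ∀ k, E.p k ∉ S) {D₀ D : ℤ} (hD : Squarefree D) (hc : E.Cond S D₀ D)
    {k : κ} {t : ℕ} (ht : Tt (E.T S) ⟨E.p k, E.pT S k⟩ t) :
    ∃ D', Squarefree D' ∧ clD (E.T S) D' = ((clD (E.T S) D).1, (clD (E.T S) D).2 + lbl (E.T S) t) ∧
      E.Cond S D₀ D' := by
  obtain ⟨g1, g2, g3⟩ := L.dec hD
  obtain ⟨c1, c2, c3⟩ := hc
  set γ : Option (E.T S) → ZMod 2 := ct D with hγ
  set n := nD (E.T S) D with hn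
  obtain ⟨q, hq, -, hqT, hql⟩ := L.ex (lbl (E.T S) n + lbl (E.T S) t) 0
  have hqc : Cop (E.T S) q := (L.toTS.prime_cop hq).2 hqT
  obtain ⟨u1, u2, u3⟩ := L.uni γ hq.prime.squarefree hqc
  have hn0 : (0 : ℤ) < (n : ℕ) := by exact_mod_cast Nat.pos_of_ne_zero g2.ne_zero
  have hq0 : (0 : ℤ) < (q : ℕ) := by exact_mod_cast hq.pos
  refine ⟨Uo γ * (q : ℤ), u1, ?_, ?_, ?_, ?_⟩
  · unfold clD
    rw [u2, u3, hql]
  · intro l
    rw [E.not_dvd_iff L u1 l, u2, hγ, ← E.not_dvd_iff L hD l]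
    exact c1 l
  · rw [g1] at c2
    have h3 : 0 < Uo γ * D₀ := by
      have h4 : Uo γ * (n : ℕ) * D₀ = (n : ℕ) * (Uo γ * D₀) := by ring
      rw [h4] at c2
      exact (mul_pos_iff_of_pos_left hn0).1 c2
    have h4 : Uo γ * (q : ℤ) * D₀ = (q : ℤ) * (Uo γ * D₀) := by ring
    rw [h4]
    exact mul_pos hq0 h3
  · intro l _ hl
    have h3 := c3 l hl
    have hlT : l ∈ E.T S := mem_insert_of_mem (mem_union_left _ (mem_filter.2 ⟨hl, Fact.out⟩))
    have hlp : l ≠ E.p k := fun h => hS k (h ▸ hl)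
    have h4 : IsSquare ((t : ℕ) : ℚ_[l]) := ht.2.1 l hlT hlp
    have h5 := L.sq (n * t) q (L.cop_mul g3 ht.1) hqc (by
      rw [L.add _ _ g3 ht.1, hql]) l hlT
    have ht0 : ((t : ℕ) : ℚ_[l]) ≠ 0 := by
      rw [Nat.cast_ne_zero]
      rintro rfl
      exact ht.1 2 L.two (dvd_zero 2)
    have hD0 : ((D : ℤ) : ℚ_[l]) ≠ 0 := Int.cast_ne_zero.2 hD.ne_zero
    push_cast at h3 h5 ⊢
    have h6 : IsSquare (((t : ℕ) : ℚ_[l]) * (((n : ℕ) : ℚ_[l]) * ((q : ℕ) : ℚ_[l]))) := by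
      have e : ((t : ℕ) : ℚ_[l]) * (((n : ℕ) : ℚ_[l]) * ((q : ℕ) : ℚ_[l])) =
        ((n : ℕ) : ℚ_[l]) * ((t : ℕ) : ℚ_[l]) * ((q : ℕ) : ℚ_[l]) := by ring
      rw [e]
      exact h5
    have h7 : IsSquare (((n : ℕ) : ℚ_[l]) * ((q : ℕ) : ℚ_[l])) := by
      obtain ⟨r, hr⟩ := h4
      obtain ⟨s, hs⟩ := h6
      have hr0 : r ≠ 0 := by
        rintro rfl
        exact ht0 (by rw [hr, mul_zero])
      refine ⟨s / r, ?_⟩
      rw [div_mul_div_comm, ← hs, ← hr]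
      field_simp
    refine isSquare_cancel hD0 ?_ h3
    have a1 : ((D : ℤ) : ℚ_[l]) = ((Uo γ : ℤ) : ℚ_[l]) * ((n : ℕ) : ℚ_[l]) := by
      have := congrArg (Int.cast : ℤ → ℚ_[l]) g1
      push_cast at this
      exact this
    have e3 : ((Uo γ : ℤ) : ℚ_[l]) * ((q : ℕ) : ℚ_[l]) * ((D : ℤ) : ℚ_[l]) =
        (((n : ℕ) : ℚ_[l]) * ((q : ℕ) : ℚ_[l])) * (((Uo γ : ℤ) : ℚ_[l]) * ((Uo γ : ℤ) : ℚ_[l])) := by
      rw [a1]
      ring
    rw [e3]
    exact h7.mul ⟨_, rfl⟩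

end Q44.JQ.W
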