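import Pool.Agent.Q44.JQ.W.Fin
import Pool.Agent.Q44.JQ.Bd

/-!
# The joint law in the classes
-/

set_option autoImplicit false
set_option linter.unusedSectionVars false

open scoped Classical Topology

namespace Q44.JQ.W

open Finset Module Filter
open Q44.JQ
open Pool.Agent.TH344.JG (LocJ SelJ PR df)
open Pool.Agent.Y723.PT (tw)
open Pool.Agent.Q269.SL (law2)

variable {κ : Type} [Fintype κ] (E : Ex κ)

/-- the facts proved in the other parts -/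
structure Facts : Prop where
  arx : S_ARX
  adj : S_ADJP
  omv : S_OMV
  laj : S_LAJ2
  sqm : S_SQM
  lbl : S_LBL
  irrA : S_IRRA
  irrB : S_IRRB

/-- **the joint law** -/
theorem Ex.joint (H : Facts) (S : Finset ℕ) (hS : ∀ k, E.p k ∉ S) :
    ∃ dd : κ → ℤ → ℕ,
      (∀ D : ℤ, Squarefree D → (∀ k, ¬ (E.p k : ℤ) ∣ D) → ∀ k, (SelJ (tw D (E.a k))).Finite ∧
        (SelJ (tw D (E.a k))).ncard ≤ 2 ^ dd k D) ∧
      ∀ D₀ : ℤ, Squarefree D₀ → (∀ k, ¬ (E.p k : ℤ) ∣ D₀) → ∀ C : ℤ → Prop,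
        (∀ D, C D ↔ Squarefree D ∧ E.Cond S D₀ D) → ∃ c : ℝ, 0 < c ∧
        Tendsto (fun X : ℕ => (((Icc (-(X : ℤ)) X).filter fun D => C D).card : ℝ) / X) atTop (𝓝 c) ∧
        ∀ (r : κ → ℕ) (Q : ℤ → Prop), (∀ D, Q D ↔ ∀ k, dd k D = 2 * E.g k + r k) →
          Tendsto (fun X : ℕ => (((Icc (-(X : ℤ)) X).filter fun D => C D ∧ Q D).card : ℝ) / X) atTop
            (𝓝 ((∏ k, law2 (r k)) * c)) := by
  have L := LB.of H.lbl (E.TS S)
  obtain ⟨dd, δ, hδ, h1, h2⟩ := (E.Fm H.irrA H.irrB S L).main L H.arx H.adj H.omv H.laj H.sqm H.lbl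
  refine ⟨dd, fun D hD hp k => ?_, fun D₀ hD₀ hp₀ C hC => ?_⟩
  · exact h1 D hD (fun k => (E.not_dvd_iff L hD k).1 (hp k)) k
  · obtain ⟨𝒞, h𝒞⟩ : ∃ 𝒞 : Finset (Cl (E.T S)), ∀ x, x ∈ 𝒞 ↔
        ∃ D, Squarefree D ∧ clD (E.T S) D = x ∧ E.Cond S D₀ D :=
      ⟨univ.filter fun x => ∃ D, Squarefree D ∧ clD (E.T S) D = x ∧ E.Cond S D₀ D, fun x => by
        rw [mem_filter]
        exact ⟨fun h => h.2, fun h => ⟨mem_univ _, h⟩⟩⟩
    have hG : ∀ x ∈ 𝒞, (E.Fm H.irrA H.irrB S L).Gk x.1 := by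
      intro x hx
      obtain ⟨D, hD, rfl, hc⟩ := (h𝒞 x).1 hx
      exact fun k => (E.not_dvd_iff L hD k).1 (hc.1 k)
    have hinv : ∀ k t x, x ∈ 𝒞 → Tt (E.T S) ((E.Fm H.irrA H.irrB S L).p k) t →
        (x.1, x.2 + lbl (E.T S) t) ∈ 𝒞 := by
      intro k t x hx ht
      obtain ⟨D, hD, rfl, hc⟩ := (h𝒞 x).1 hx
      obtain ⟨D', g1, g2, g3⟩ := E.cond_inv L hS hD hc ht
      exact (h𝒞 _).2 ⟨D', g1, g2, g3⟩
    have hC' : ∀ D, C D ↔ Squarefree D ∧ clD (E.T S) D ∈ 𝒞 := by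
      intro D
      rw [hC]
      refine and_congr_right fun hD => ?_
      rw [h𝒞]
      constructor
      · exact fun h => ⟨D, hD, rfl, h⟩
      · rintro ⟨D', hD', h3, h4⟩
        exact E.cond_cls L hD' hD h3 h4
    obtain ⟨g1, g2⟩ := h2 𝒞 hG hinv C hC'
    have hmem : clD (E.T S) D₀ ∈ 𝒞 := by
      refine (h𝒞 _).2 ⟨D₀, hD₀, rfl, hp₀, ?_, fun l _ _ => ?_⟩
      · exact mul_self_pos.2 hD₀.ne_zero
      · push_cast
        exact ⟨_, rfl⟩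
    refine ⟨_, mul_pos hδ (Finset.sum_pos (fun x _ => ?_) ⟨_, hmem⟩), g1, fun r Q hQ => g2 r Q hQ⟩
    have : 0 < (Uo x.1).natAbs := Int.natAbs_pos.2 (L.U0 _)
    positivity

/-- the bounds for the Jacobian `J` of `y ^ 2 = ∏ (x - a i)` with the number `e` -/
def Bdd {g : ℕ} (a : Fin (2 * g + 1) → ℤ) (e : ℕ) : Prop :=
  ∀ m : ℕ, 1 ≤ m → Finite (Pool.Agent.Y723.SJ.QuotQ a (2 ^ m)) ∧
    Finite (Pool.Agent.Y723.SJ.ShaTorsion a (2 ^ m)) ∧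
    2 ^ (2 * g) ≤ Nat.card (Pool.Agent.Y723.SJ.QuotQ a (2 ^ m)) ∧
    Nat.card (Pool.Agent.Y723.SJ.QuotQ a (2 ^ m)) * Nat.card (Pool.Agent.Y723.SJ.ShaTorsion a (2 ^ m)) ≤
      2 ^ (2 * g + e * m)

theorem bdd_of {g : ℕ} (hg : 1 ≤ g) {a : Fin (2 * g + 1) → ℤ} (ha : Function.Injective a)
    {D : ℤ} (hD : Squarefree D) {q : ℕ} (hq : q.Prime) (hqD : (q : ℤ) ∣ D)
    (hqa : ¬ q ∣ Pool.Agent.Y723.PT.DA a) {e : ℕ} (hfin : (SelJ (tw D a)).Finite)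
    (hcard : (SelJ (tw D a)).ncard ≤ 2 ^ (2 * g + e)) : Bdd (tw D a) e := by
  obtain ⟨w, hw⟩ := hqD
  have hw0 : w ≠ 0 := by
    rintro rfl
    rw [mul_zero] at hw
    exact hD.ne_zero hw
  have hqw : ¬ (q : ℤ) ∣ w := by
    rintro ⟨v, hv⟩
    have h1 : (q : ℤ) * q ∣ D := ⟨v, by rw [hw, hv]; ring⟩
    have h7 := hD _ h1
    rw [Int.isUnit_iff] at h7
    have := hq.one_lt
    omega
  have e1 : tw D a = tw q (tw w a) := by
    funext i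
    show D * a i = q * (w * a i)
    rw [hw]
    ring
  have hinj : Function.Injective (tw w a) := Pool.Agent.Y723.PT.tw_inj hw0 ha
  have hnd : ¬ q ∣ Pool.Agent.Y723.PT.DA (tw w a) := by
    unfold Pool.Agent.Y723.PT.DA at hqa ⊢
    intro h
    obtain ⟨c, -, hc⟩ := hq.prime.exists_mem_finset_dvd h
    have h2 : df (tw w a) c = w * df a c := by
      unfold df tw
      ring
    rw [h2, Int.natAbs_mul] at hc
    rcases (Nat.Prime.dvd_mul hq).1 hc with h3 | h3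
    · exact hqw (Int.natCast_dvd.2 h3)
    · exact hqa (h3.trans (Finset.dvd_prod_of_mem _ (mem_univ c)))
  rw [e1] at hfin hcard ⊢
  exact fun m hm => bd_of hg hinj hq hnd hfin hcard m hm

theorem Ex.bdd {D : ℤ} (hD : Squarefree D) {k : κ} (hn : ∃ q : ℕ, q.Prime ∧ (q : ℤ) ∣ D ∧
    ¬ (q : ℤ) ∣ E.DD) {e : ℕ} (hfin : (SelJ (tw D (E.a k))).Finite)
    (hcard : (SelJ (tw D (E.a k))).ncard ≤ 2 ^ (2 * E.g k + e)) : Bdd (tw D (E.a k)) e := by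
  obtain ⟨q, hq, hqD, hqE⟩ := hn
  refine bdd_of (E.hg k) (E.ha k) hD hq hqD ?_ hfin hcard
  intro h
  unfold Pool.Agent.Y723.PT.DA at h
  obtain ⟨c, -, hc⟩ := hq.prime.exists_mem_finset_dvd h
  exact hqE ((Int.natCast_dvd.2 hc).trans (E.dvd_DD k c))

/-- only finitely many squarefree integers have no prime factor prime to a given integer -/
theorem fin_bad {N : ℤ} (hN : N ≠ 0) {D : ℤ} (hD : Squarefree D)
    (h : ¬ ∃ q : ℕ, q.Prime ∧ (q : ℤ) ∣ D ∧ ¬ (q : ℤ) ∣ N) : D.natAbs ≤ N.natAbs := by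
  push Not at h
  refine Nat.le_of_dvd (Int.natAbs_pos.2 hN) ?_
  rw [← Nat.prod_primeFactors_of_squarefree (Int.squarefree_natAbs.2 hD)]
  refine Finset.prod_primes_dvd _ (fun p hp => (Nat.prime_of_mem_primeFactors hp).prime)
    fun p hp => ?_
  have h5 : (p : ℤ) ∣ D := Int.natCast_dvd.2 (Nat.dvd_of_mem_primeFactors hp)
  exact Int.natCast_dvd.1 (h p (Nat.prime_of_mem_primeFactors hp) h5)

/-- **the theorem for all sets of vectors** -/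
theorem Ex.all (H : Facts) (S : Finset ℕ) (hS : ∀ k, E.p k ∉ S) (D₀ : ℤ) (hD₀ : Squarefree D₀)
    (hp₀ : ∀ k, ¬ (E.p k : ℤ) ∣ D₀) (C : ℤ → Prop) (hC : ∀ D, C D ↔ Squarefree D ∧ E.Cond S D₀ D)
    (𝒜 : Set (κ → ℕ)) (G : ℤ → Prop)
    (hG : ∀ D, G D ↔ ∃ e ∈ 𝒜, ∀ k, Bdd (tw D (E.a k)) (e k)) :
    (∃ c : ℝ, 0 < c ∧
      Tendsto (fun X : ℕ => (((Icc (-(X : ℤ)) X).filter fun D => C D).card : ℝ) / X) atTop (𝓝 c)) ∧
    ∀ ε : ℝ, 0 < ε → ∀ᶠ X : ℕ in atTop,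
      ((∑' e : κ → ℕ, if e ∈ 𝒜 then ∏ k, law2 (e k) else 0) - ε) *
        (((Icc (-(X : ℤ)) X).filter fun D => C D).card : ℝ) ≤
        (((Icc (-(X : ℤ)) X).filter fun D => C D ∧ G D).card : ℝ) := by
  obtain ⟨dd, h1, h2⟩ := E.joint H S hS
  obtain ⟨c, hc, h3, h4⟩ := h2 D₀ hD₀ hp₀ C hC
  refine ⟨⟨c, hc, h3⟩, fun ε hε => ?_⟩
  obtain ⟨F, hF𝒜, hF⟩ := Pool.Agent.Q269.SL.prob_fin 𝒜 (half_pos hε)
  obtain ⟨Q, hQ⟩ : ∃ Q : (κ → ℕ) → ℤ → Prop, ∀ r D, Q r D ↔ ∀ k, dd k D = 2 * E.g k + r k :=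
    ⟨_, fun _ _ => Iff.rfl⟩
  set P : ℝ := ∑ e ∈ F, ∏ k, law2 (e k) with hP
  set N : ℕ → ℝ := fun X => (((Icc (-(X : ℤ)) X).filter fun D => C D).card : ℝ) with hN
  have h5 : Tendsto (fun X : ℕ => ∑ r ∈ F,
      (((Icc (-(X : ℤ)) X).filter fun D => C D ∧ Q r D).card : ℝ) / X) atTop
      (𝓝 (∑ r ∈ F, (∏ k, law2 (r k)) * c)) := tendsto_finsetSum _ fun r _ => h4 r (Q r) (hQ r)
  rw [← Finset.sum_mul, ← hP] at h5
  set B : ℝ := 2 * (E.DD.natAbs : ℝ) + 1 with hB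
  have h6 : Tendsto (fun X : ℕ => B / (X : ℝ)) atTop (𝓝 0) := tendsto_const_div_atTop_nhds_zero_nat B
  have h7 := (h5.sub h6).sub (h3.const_mul (P - ε / 2))
  have e1 : P * c - 0 - (P - ε / 2) * c = ε / 2 * c := by ring
  rw [e1] at h7
  filter_upwards [h7.eventually_const_lt (show (0 : ℝ) < ε / 2 * c from mul_pos (half_pos hε) hc), eventually_gt_atTop 0]
    with X hX hX0
  have hX0' : (0 : ℝ) < X := by exact_mod_cast hX0
  have h8 : ∑ r ∈ F, (((Icc (-(X : ℤ)) X).filter fun D => C D ∧ Q r D).card : ℝ) ≤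
      (((Icc (-(X : ℤ)) X).filter fun D => C D ∧ G D).card : ℝ) + B := by
    have h9 : ∑ r ∈ F, ((Icc (-(X : ℤ)) X).filter fun D => C D ∧ Q r D).card =
        (F.biUnion fun r => (Icc (-(X : ℤ)) X).filter fun D => C D ∧ Q r D).card := by
      symm
      refine Finset.card_biUnion fun r _ r' _ hrr => ?_
      refine Finset.disjoint_left.2 ?_
      intro D hD hD'
      apply hrr
      have a1 := (hQ r D).1 (mem_filter.1 hD).2.2
      have a2 := (hQ r' D).1 (mem_filter.1 hD').2.2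
      funext k
      have a3 := a1 k
      rw [a2 k] at a3
      omega
    have h10 : (F.biUnion fun r => (Icc (-(X : ℤ)) X).filter fun D => C D ∧ Q r D) ⊆
        ((Icc (-(X : ℤ)) X).filter fun D => C D ∧ G D) ∪
          Icc (-(E.DD.natAbs : ℤ)) (E.DD.natAbs : ℤ) := by
      intro D hD
      obtain ⟨r, hr, hD⟩ := mem_biUnion.1 hD
      obtain ⟨a1, a2, a3⟩ := mem_filter.1 hD
      obtain ⟨b1, b2, b3⟩ := (hC D).1 a2
      rw [mem_union]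
      by_cases hb : ∃ q : ℕ, q.Prime ∧ (q : ℤ) ∣ D ∧ ¬ (q : ℤ) ∣ E.DD
      · left
        refine mem_filter.2 ⟨a1, a2, (hG D).2 ⟨r, hF𝒜 r hr, fun k => ?_⟩⟩
        obtain ⟨c1, c2⟩ := h1 D b1 b2 k
        rw [(hQ r D).1 a3 k] at c2
        exact E.bdd b1 hb c1 c2
      · right
        have := fin_bad E.DD0 b1 hb
        rw [mem_Icc, ← abs_le, Int.abs_eq_natAbs]
        exact_mod_cast this
    have h11 := (card_le_card h10).trans (card_union_le _ _)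
    rw [← h9, Int.card_Icc] at h11
    have h12 : ((E.DD.natAbs : ℤ) + 1 - -(E.DD.natAbs : ℤ)).toNat = 2 * E.DD.natAbs + 1 := by omega
    rw [h12] at h11
    have h13 := (Nat.cast_le (α := ℝ)).2 h11
    push_cast at h13
    rw [hB]
    exact h13
  have h9 : (0 : ℝ) < ∑ r ∈ F, (((Icc (-(X : ℤ)) X).filter fun D => C D ∧ Q r D).card : ℝ) - B -
      (P - ε / 2) * N X := by
    have h10 : ∑ r ∈ F, (((Icc (-(X : ℤ)) X).filter fun D => C D ∧ Q r D).card : ℝ) / X - B / X -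
        (P - ε / 2) * (N X / X) = (∑ r ∈ F,
          (((Icc (-(X : ℤ)) X).filter fun D => C D ∧ Q r D).card : ℝ) - B - (P - ε / 2) * N X) / X := by
      rw [← Finset.sum_div]
      ring
    have hX' : (0 : ℝ) < ∑ r ∈ F,
        (((Icc (-(X : ℤ)) X).filter fun D => C D ∧ Q r D).card : ℝ) / X - B / X -
        (P - ε / 2) * (N X / X) := hX
    rw [h10] at hX'
    exact (div_pos_iff_of_pos_right hX0').1 hX'
  have h10 : (0 : ℝ) ≤ N X := Nat.cast_nonneg _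
  have h11 : ((∑' e : κ → ℕ, if e ∈ 𝒜 then ∏ k, law2 (e k) else 0) - ε) * N X ≤
      (P - ε / 2) * N X := mul_le_mul_of_nonneg_right (by linarith) h10
  show ((∑' e : κ → ℕ, if e ∈ 𝒜 then ∏ k, law2 (e k) else 0) - ε) * N X ≤ _
  linarith

end Q44.JQ.W
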