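import Pool.Agent.Q44.JQ.W.Asy

/-!
# The package for several curves
-/

set_option autoImplicit false
set_option linter.unusedSectionVars false

open scoped Classical Topology

namespace Q44.JQ.W

open Finset Module Filter
open Q44.JQ
open Pool.Agent.Y703.CQ (nr)
open Pool.Agent.TH344.JG (LocJ SelJ PR df)
open Pool.Agent.Y723.PT (tw)

variable {T : Finset ℕ}

/-- several curves; `p k` is a nice prime of the curve `k` and a good prime of the others -/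
structure Fm (T : Finset ℕ) (κ : Type) where
  c : κ → Cr T
  p : κ → T
  i : ∀ k, PR (2 * (c k).g + 1)
  nice : ∀ k, (c k).Nice (p k) (i k)
  good : ∀ k l, k ≠ l → (c k).Good (p l)
  irr : ∀ k, (c k).Irr

variable {κ : Type} (F : Fm T κ)

/-- the class is prime to the primes `p k` -/
def Fm.Gk (γ : Option T → ZMod 2) : Prop := ∀ k, γ (some (F.p k)) = 0

theorem Fm.p_ne2 (k : κ) : ((F.p k : T) : ℕ) ≠ 2 := (F.nice k).1

theorem Fm.p_inj : Function.Injective F.p := by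
  intro k l h
  by_contra hne
  exact (F.good k l hne).2 _ _ (ne_of_lt (F.i k).2) (h ▸ (F.nice k).2.1)

variable (L : LB T)

include L

theorem LB.not_dvd' {γ : Option T → ZMod 2} {t : T} (h : γ (some t) = 0) : ¬ ((t : ℕ) : ℤ) ∣ Uo γ := by
  obtain ⟨h1, -, h3⟩ := L.uo γ
  have h4 := val_eq (L.pr t t.2) h1 squarefree_one (by
    rw [← ct_some, h3, h]
    simp [padicValInt])
  rw [h4]
  intro h5
  have := Int.isUnit_iff.1 (isUnit_of_dvd_one h5)
  have := (L.pr t t.2).one_lt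
  omega

/-- the curve with roots `Uo γ * a i` -/
noncomputable def Fm.cu (F : Fm T κ) (γ : Option T → ZMod 2) (k : κ) : Cr T :=
  (F.c k).mul (Uo γ) (L.U0 γ) (L.uo γ).2.1

theorem Fm.cu_nice {γ : Option T → ZMod 2} (hγ : F.Gk γ) (k : κ) :
    (F.cu L γ k).Nice (F.p k) (F.i k) := by
  obtain ⟨h1, h2, h3, h4⟩ := F.nice k
  have hp := L.pr (F.p k) (F.p k).2
  have hP := Nat.prime_iff_prime_int.1 hp
  have hu := LB.not_dvd' L (hγ k)
  have e : ∀ x : PR (2 * (F.c k).g + 1), df (F.cu L γ k).a x = Uo γ * df (F.c k).a x := by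
    intro x
    show Uo γ * (F.c k).a x.1.1 - Uo γ * (F.c k).a x.1.2 = _
    unfold df
    ring
  refine ⟨h1, ?_, ?_, fun k' hk' => ?_⟩
  · show (((F.p k : T) : ℕ) : ℤ) ∣ df (F.cu L γ k).a (F.i k)
    rw [e]
    exact h2.mul_left _
  · show ¬ (((F.p k : T) : ℕ) : ℤ) ^ 2 ∣ df (F.cu L γ k).a (F.i k)
    rw [e]
    intro h
    exact h3 (hP.pow_dvd_of_dvd_mul_left 2 hu h)
  · intro h
    have h' : (((F.p k : T) : ℕ) : ℤ) ∣ Uo γ * df (F.c k).a k' := by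
      have e1 := e k'
      rw [← e1]
      exact h
    rcases hP.dvd_or_dvd h' with h | h
    · exact hu h
    · exact h4 k' hk' h

theorem Fm.cu_good {γ : Option T → ZMod 2} (hγ : F.Gk γ) {k l : κ} (hkl : k ≠ l) :
    (F.cu L γ k).Good (F.p l) := by
  obtain ⟨h1, h2⟩ := F.good k l hkl
  have hp := L.pr (F.p l) (F.p l).2
  have hP := Nat.prime_iff_prime_int.1 hp
  refine ⟨h1, fun i j hij h => ?_⟩
  have h3 : (((F.p l : T) : ℕ) : ℤ) ∣ Uo γ * ((F.c k).a i - (F.c k).a j) := by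
    rw [mul_sub]
    exact h
  rcases hP.dvd_or_dvd h3 with h | h
  · exact LB.not_dvd' L (hγ l) h
  · exact h2 i j hij h

/-- `t` changes the class at the prime `q` only -/
def Tt (T : Finset ℕ) (q : T) (t : ℕ) : Prop := Cop T t ∧
  (∀ (p : ℕ) [Fact p.Prime], p ∈ T → p ≠ q → IsSquare (t : ℚ_[p])) ∧ ¬ IsSquare ((t : ℕ) : ZMod q)

theorem Fm.pkg [Fintype κ] (hARX : S_ARX) (hADJP : S_ADJP) (hOMV : S_OMV) (hLAJ : S_LAJ2)
    {γ : Option T → ZMod 2} (hγ : F.Gk γ) :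
    ∃ (dm : κ → (Option T → ZMod 2) → ℕ → ℕ) (π : κ → (Option T → ZMod 2) → ZMod 2),
      (∀ k n, Squarefree n → Cop T n → (SelJ (tw (Uo γ * n) (F.c k).a)).Finite ∧
        (SelJ (tw (Uo γ * n) (F.c k).a)).ncard ≤ 2 ^ dm k (lbl T n) n) ∧
      (∀ ρ (r : κ → ℕ) (Q : ℕ → Prop), (∀ n, Q n ↔ ∀ k, dm k ρ n = 2 * (F.c k).g + r k) →
        Tendsto (fun X : ℕ => (((Icc 1 X).filter fun n => Dn T ρ n ∧ Q n).card : ℝ) /
          (((Icc 1 X).filter fun n => Dn T ρ n).card : ℝ)) atTop (𝓝 (∏ k, lawc (π k ρ) (r k)))) ∧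
      (∀ k l ρ t, Tt T (F.p k) t →
        π l (ρ + lbl T t) = π l ρ + if l = k then 1 else 0) := by
  have h1 : ∀ k, ∃ 𝓛 : (Option T → ZMod 2) →
      Submodule (ZMod 2) ((Option T → (F.cu L γ k).V) × (Option T → (F.cu L γ k).V)),
    (∀ ρ, ((F.cu L γ k).dj (𝓛 ρ)).Ok ρ) ∧
    (∀ ρ, ∀ S : Finset ℕ, (∀ p ∈ S, p.Prime ∧ p ∉ T) → ∑ p ∈ S, lbl T p = ρ →
      (SelJ (tw ((∏ q ∈ S, q : ℕ) : ℤ) (F.cu L γ k).a)).Finite ∧
      (SelJ (tw ((∏ q ∈ S, q : ℕ) : ℤ) (F.cu L γ k).a)).ncard ≤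
        Nat.card (Sel ((F.cu L γ k).dj (𝓛 ρ)) (fun p q : S => nr p q) (fun p : S => lbl T p))) ∧
    ∀ (ρ : Option T → ZMod 2) (q : T), (q = F.p k ∨ q ∈ univ.image F.p \ {F.p k}) → ∀ t : ℕ, Cop T t →
      (∀ (p : ℕ) [Fact p.Prime], p ∈ T → p ≠ q → IsSquare (t : ℚ_[p])) →
      ¬ IsSquare ((t : ℕ) : ZMod q) →
      ((finrank (ZMod 2) ((F.cu L γ k).dj (𝓛 (ρ + lbl T t))).pm : ℕ) : ZMod 2) =
        ((finrank (ZMod 2) ((F.cu L γ k).dj (𝓛 ρ)).pm : ℕ) : ZMod 2) +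
          if q = F.p k then 1 else 0 := by
    intro k
    refine hARX T L.pr L.two (F.cu L γ k) (F.p k) (F.i k) (univ.image F.p \ {F.p k})
      (F.cu_nice L hγ k) ?_
    intro q hq
    obtain ⟨h1, h2⟩ := mem_sdiff.1 hq
    obtain ⟨l, -, rfl⟩ := mem_image.1 h1
    exact F.cu_good L hγ fun h => h2 (mem_singleton.2 (congrArg F.p h).symm)
  choose 𝓛 hO hS hfl using h1
  have hfr : ∀ k, finrank (ZMod 2) (F.cu L γ k).V = 2 * (F.c k).g := fun k =>
    (hOMV T (F.cu L γ k) ⊥).2.2.2.1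
  haveI : ∀ k, Nontrivial (F.cu L γ k).V := fun k => (hOMV T (F.cu L γ k) ⊥).2.2.2.2
  refine ⟨fun k ρ n => dmS ((F.cu L γ k).dj (𝓛 k ρ)) n.primeFactors,
    fun k ρ => ((finrank (ZMod 2) ((F.cu L γ k).dj (𝓛 k ρ)).pm : ℕ) : ZMod 2), ?_, ?_, ?_⟩
  · intro k n hn hc
    have hp : ∀ p ∈ n.primeFactors, p.Prime ∧ p ∉ T := fun p hp =>
      ⟨Nat.prime_of_mem_primeFactors hp, fun h => hc p h (Nat.dvd_of_mem_primeFactors hp)⟩
    have hl := L.lbl_prod n.primeFactors fun p h => (L.toTS.prime_cop (hp p h).1).2 (hp p h).2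
    have h2 := hS k (lbl T n) n.primeFactors hp (by
      rw [← hl.2, Nat.prod_primeFactors_of_squarefree hn])
    rw [Nat.prod_primeFactors_of_squarefree hn] at h2
    have e : tw (Uo γ * n) (F.c k).a = tw (n : ℤ) (F.cu L γ k).a := by
      funext i
      show Uo γ * n * (F.c k).a i = n * (Uo γ * (F.c k).a i)
      ring
    rw [e]
    refine ⟨h2.1, h2.2.trans (le_of_eq ?_)⟩
    unfold dmS
    rw [Module.natCard_eq_pow_finrank (K := ZMod 2), Nat.card_zmod]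
  · intro ρ r Q hQ
    refine law_nat L hLAJ (κ := κ) (V := fun k => (F.cu L γ k).V)
      (D := fun k => (F.cu L γ k).dj (𝓛 k ρ)) (fun k => rfl) (fun k => hO k ρ) ?_ r Q ?_
    · refine hADJP T L.pr L.two κ F.c F.p F.i (Uo γ) (L.U0 γ) (L.uo γ).2.1 F.irr F.nice F.good ?_
        fun k => 𝓛 k ρ
      exact fun k => LB.not_dvd' L (hγ k)
    · intro n
      rw [hQ]
      refine forall_congr' fun k => ?_
      rw [hfr k]
  · intro k l ρ t ht
    have h2 := hfl l ρ (F.p k) (by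
      by_cases h : k = l
      · exact Or.inl (congrArg F.p h)
      · refine Or.inr (mem_sdiff.2 ⟨mem_image_of_mem _ (mem_univ _), fun h' => h ?_⟩)
        exact F.p_inj (mem_singleton.1 h')) t ht.1 ht.2.1 ht.2.2
    show ((finrank (ZMod 2) ((F.cu L γ l).dj (𝓛 l (ρ + lbl T t))).pm : ℕ) : ZMod 2) =
      ((finrank (ZMod 2) ((F.cu L γ l).dj (𝓛 l ρ)).pm : ℕ) : ZMod 2) + if l = k then 1 else 0
    rw [h2]
    congr 1
    by_cases h : l = k
    · rw [if_pos h, if_pos (congrArg F.p h).symm]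
    · rw [if_neg h, if_neg fun h' => h (F.p_inj h').symm]

end Q44.JQ.W
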